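import Pool.Agent.Helper61.Tri.Goals

/-! Packet CEVEN of MP_5b3c48_co. -/

set_option autoImplicit false

open Finset

namespace Pool.Agent.Helper70.Tri

open Pool.Agent.Helper61.Tri

noncomputable section

open scoped Classical

namespace Ce

theorem exists_last {V : Type} {T : Finset V} {d : V} (hd : d ∈ T) :
    ∃ e ∈ T, d = e → T = {d} := by
  by_cases h : T = {d}
  · exact ⟨d, hd, fun _ => h⟩
  · have h2 : ∃ e ∈ T, e ≠ d := by
      by_contra hcon
      push Not at hcon
      refine h (Finset.eq_singleton_iff_unique_mem.2 ⟨hd, hcon⟩)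
    obtain ⟨e, he, hne⟩ := h2
    exact ⟨e, he, fun h => absurd h.symm hne⟩

/-- Two disjoint triangles `q1 p1 r1`, `α β γ` and links `p1 - α` through `d`, `β - q1` through the
other centres. -/
theorem two_tri (ET : EPTools) {V : Type} [Fintype V] {G : SimpleGraph V} {s K : ℕ}
    {X : Finset V} (hs : 2 ≤ s) (hK : 16 * s + 100 ≤ K) (hX : X.card = s)
    (hlink : ∀ (T S : Finset V) (d d' p q : V), T ⊆ X → d ∈ T → d' ∈ T → (d = d' → T = {d}) →
      p ≠ q → p ∉ X → q ∉ X → lnk G K p d → lnk G K q d' → S.card + 8 * s + 10 ≤ K →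
      p ∉ S → q ∉ S → Disjoint S T → ∃ S', EP G (2 * T.card) p q S' ∧ Disjoint S S')
    {p1 q1 r1 α β γ d d' : V}
    (h1 : G.Adj q1 p1) (h2 : G.Adj q1 r1) (h3 : G.Adj p1 r1)
    (h4 : G.Adj α β) (h5 : G.Adj α γ) (h6 : G.Adj β γ)
    (hp1 : p1 ∉ X) (hq1 : q1 ∉ X) (hr1 : r1 ∉ X) (hα : α ∉ X) (hβ : β ∉ X) (hγ : γ ∉ X)
    (hdis : Disjoint ({q1, p1, r1} : Finset V) {α, β, γ})
    (hd : d ∈ X) (hd' : d' ∈ X) (hdd : d ≠ d')
    (l1 : lnk G K p1 d) (l2 : lnk G K α d) (l3 : lnk G K β d') (l4 : ∀ x ∈ X, lnk G K q1 x) :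
    ECyc G (2 * s + 2) := by
  have hne : ∀ u ∈ ({q1, p1, r1} : Finset V), ∀ v ∈ ({α, β, γ} : Finset V), u ≠ v := by
    intro u hu v hv huv
    subst huv
    exact (Finset.disjoint_left.1 hdis) hu hv
  have n1 : q1 ≠ α := hne _ (by simp) _ (by simp)
  have n2 : q1 ≠ β := hne _ (by simp) _ (by simp)
  have n3 : q1 ≠ γ := hne _ (by simp) _ (by simp)
  have n4 : p1 ≠ α := hne _ (by simp) _ (by simp)
  have n5 : p1 ≠ β := hne _ (by simp) _ (by simp)
  have n6 : p1 ≠ γ := hne _ (by simp) _ (by simp)
  have n7 : r1 ≠ α := hne _ (by simp) _ (by simp)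
  have n8 : r1 ≠ β := hne _ (by simp) _ (by simp)
  have n9 : r1 ≠ γ := hne _ (by simp) _ (by simp)
  have m1 : q1 ≠ p1 := h1.ne
  have m2 : q1 ≠ r1 := h2.ne
  have m3 : p1 ≠ r1 := h3.ne
  have m4 : α ≠ β := h4.ne
  have m5 : α ≠ γ := h5.ne
  have m6 : β ≠ γ := h6.ne
  -- first link
  have c4 : ({q1, r1, β, γ} : Finset V).card ≤ 4 := Finset.card_le_four
  have cX : (X \ {d}).card + 1 = s := by
    rw [Finset.card_sdiff_of_subset (by simpa using hd), hX, Finset.card_singleton]
    omega
  obtain ⟨S1, hS1, hdS1⟩ := hlink {d} ({q1, r1, β, γ} ∪ (X \ {d})) d d p1 α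
    (by simpa using hd) (mem_singleton_self d) (mem_singleton_self d) (fun _ => rfl) n4 hp1 hα
    l1 l2
    (by
      have := Finset.card_union_le ({q1, r1, β, γ} : Finset V) (X \ {d})
      omega)
    (by
      simp only [mem_union, mem_insert, mem_singleton, mem_sdiff, not_or]
      exact ⟨⟨m1.symm, m3, n5, n6⟩, fun h => hp1 h.1⟩)
    (by
      simp only [mem_union, mem_insert, mem_singleton, mem_sdiff, not_or]
      exact ⟨⟨n1.symm, n7.symm, m4, m5⟩, fun h => hα h.1⟩)
    (by
      rw [Finset.disjoint_singleton_right]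
      simp only [mem_union, mem_insert, mem_singleton, mem_sdiff, not_or, not_and, not_not,
        implies_true, and_true]
      exact ⟨fun h => hq1 (h ▸ hd), fun h => hr1 (h ▸ hd), fun h => hβ (h ▸ hd),
        fun h => hγ (h ▸ hd)⟩)
  rw [Finset.card_singleton, mul_one] at hS1
  obtain ⟨S1', hsub, hS1', hcard, hpS, hαS⟩ := ET.shrink hS1
  have hav : ∀ u ∈ S1', u ≠ q1 ∧ u ≠ r1 ∧ u ≠ β ∧ u ≠ γ ∧ (u ∈ X → u = d) := by
    intro u hu
    have h7 := Finset.disjoint_right.1 hdS1 (hsub hu)
    simp only [mem_union, mem_insert, mem_singleton, mem_sdiff, not_or, not_and, not_not] at h7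
    exact ⟨h7.1.1, h7.1.2.1, h7.1.2.2.1, h7.1.2.2.2, h7.2⟩
  -- second link
  have hd'T : d' ∈ X \ {d} := mem_sdiff.2 ⟨hd', by simpa using hdd.symm⟩
  obtain ⟨e, he, hee⟩ := exists_last hd'T
  obtain ⟨S2, hS2, hdS2⟩ := hlink (X \ {d}) (S1' ∪ {r1, γ}) d' e β q1
    Finset.sdiff_subset hd'T he hee n2.symm hβ hq1 l3 (l4 e (mem_sdiff.1 he).1)
    (by
      have h7 := Finset.card_union_le S1' ({r1, γ} : Finset V)
      have h8 : ({r1, γ} : Finset V).card ≤ 2 := Finset.card_le_two
      omega)
    (by
      simp only [mem_union, mem_insert, mem_singleton, not_or]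
      exact ⟨fun h => (hav β h).2.2.1 rfl, n8.symm, m6⟩)
    (by
      simp only [mem_union, mem_insert, mem_singleton, not_or]
      exact ⟨fun h => (hav q1 h).1 rfl, m2, n3⟩)
    (by
      rw [Finset.disjoint_left]
      intro u hu huX
      obtain ⟨h7, h8⟩ := mem_sdiff.1 huX
      rcases mem_union.1 hu with h9 | h9
      · exact h8 (mem_singleton.2 ((hav u h9).2.2.2.2 h7))
      · simp only [mem_insert, mem_singleton] at h9
        rcases h9 with rfl | rfl
        · exact hr1 h7
        · exact hγ h7)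
  have hav2 : ∀ u ∈ S2, u ∉ S1' ∧ u ≠ r1 ∧ u ≠ γ := by
    intro u hu
    have h7 := Finset.disjoint_right.1 hdS2 hu
    simp only [mem_union, mem_insert, mem_singleton, not_or] at h7
    exact ⟨h7.1, h7.2.1, h7.2.2⟩
  -- assemble
  have e1 : EP G 1 q1 p1 {q1, p1, r1} := ET.single h1 h2 h3
  have e2 : EP G 1 α β {α, β, γ} := ET.single h4 h5 h6
  have e3 := ET.trans e1 hS1' (by
    intro u hu
    obtain ⟨h7, h8⟩ := mem_inter.1 hu
    simp only [mem_insert, mem_singleton] at h7 ⊢
    rcases h7 with rfl | h7 | rfl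
    · exact absurd rfl (hav _ h8).1
    · exact h7
    · exact absurd rfl (hav _ h8).2.1)
  have e4 := ET.trans e3 e2 (by
    intro u hu
    obtain ⟨h7, h8⟩ := mem_inter.1 hu
    simp only [mem_insert, mem_singleton] at h8 ⊢
    rcases mem_union.1 h7 with h9 | h9
    · exact absurd rfl (hne u h9 u (by simpa using h8))
    · rcases h8 with h8 | rfl | rfl
      · exact h8
      · exact absurd rfl (hav _ h9).2.2.1
      · exact absurd rfl (hav _ h9).2.2.2.1)
  have e5 := ET.close e4 hS2 (by
    intro u hu
    obtain ⟨h7, h8⟩ := mem_inter.1 hu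
    simp only [mem_insert, mem_singleton]
    obtain ⟨g1, g2, g3⟩ := hav2 u h8
    rcases mem_union.1 h7 with h9 | h9
    · rcases mem_union.1 h9 with h10 | h10
      · simp only [mem_insert, mem_singleton] at h10
        rcases h10 with h10 | rfl | h10
        · exact Or.inl h10
        · exact absurd hpS g1
        · exact absurd h10 g2
      · exact absurd h10 g1
    · simp only [mem_insert, mem_singleton] at h9
      rcases h9 with rfl | h9 | h9
      · exact absurd hαS g1
      · exact Or.inr h9
      · exact absurd h9 g3) (by omega) (by omega)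
  have e6 : 1 + 2 + 1 + 2 * (X \ {d}).card = 2 * s + 2 := by omega
  rw [e6] at e5
  exact e5

end Ce

open Ce

theorem ceven : EPTools → LinkX → CEven := by
  intro ET hLX s hs
  obtain ⟨n0, hL⟩ := hLX s (16 * s + 100) (by omega)
  refine ⟨16 * s + 100, n0, ?_⟩
  intro V _ hn G X hctx G' hG'
  obtain ⟨hQ, hQK, hlink⟩ := hL V hn G X hctx
  have hX : X.card = s := hctx.card
  have hadj : ∀ {u v : V}, G'.Adj u v → G.Adj u v ∧ u ∉ X ∧ v ∉ X := by
    intro u v h
    subst hG'
    exact ⟨h.1, mem_compl.1 h.2.1, mem_compl.1 h.2.2⟩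
  obtain ⟨x0, hx0, x1, hx1, hx01⟩ := Finset.one_lt_card.1 (show 1 < X.card by omega)
  -- linking through all of `X`
  have hlinkX : ∀ (S : Finset V) (p q : V), p ≠ q → p ∉ X → q ∉ X → p ∈ Qs G X → q ∈ Qs G X →
      S.card ≤ 6 → p ∉ S → q ∉ S → Disjoint S X → ∃ S', EP G (2 * s) p q S' ∧ Disjoint S S' := by
    intro S p q hpq hp hq hpQ hqQ hS hpS hqS hSX
    have := hlink X S x0 x1 p q Finset.Subset.rfl hx0 hx1 (fun h => absurd h hx01) hpq hp hq
      (hQ p hpQ x0 hx0) (hQ q hqQ x1 hx1) (by omega) hpS hqS hSX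
    rwa [hX] at this
  constructor
  · intro v a a' b b' g1 g2 g3 g4 g5 g6 haQ hbQ n1 n2 n3 n4
    obtain ⟨k1, kv, ka⟩ := hadj g1
    obtain ⟨k2, -, ka'⟩ := hadj g2
    obtain ⟨k3, -, -⟩ := hadj g3
    obtain ⟨k4, -, kb⟩ := hadj g4
    obtain ⟨k5, -, kb'⟩ := hadj g5
    obtain ⟨k6, -, -⟩ := hadj g6
    have e1 : EP G 1 a v {a, v, a'} := ET.single k1.symm k3 k2
    have e2 : EP G 1 v b {v, b, b'} := ET.single k4 k5 k6
    have e3 := ET.trans e1 e2 (by
      intro u hu
      obtain ⟨h7, h8⟩ := mem_inter.1 hu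
      simp only [mem_insert, mem_singleton] at h7 h8 ⊢
      rcases h7 with rfl | h7 | rfl
      · rcases h8 with h8 | h8 | h8
        · exact h8
        · exact absurd h8 n1
        · exact absurd h8 n2
      · exact h7
      · rcases h8 with h8 | h8 | h8
        · exact h8
        · exact absurd h8 n3
        · exact absurd h8 n4)
    have hU : ∀ u ∈ ({a, v, a'} ∪ {v, b, b'} : Finset V),
        u = a ∨ u = b ∨ u ∈ ({v, a', b'} : Finset V) := by
      intro u hu
      simp only [mem_union, mem_insert, mem_singleton] at hu ⊢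
      tauto
    constructor
    · -- path
      have hUc : ({a, v, a'} ∪ {v, b, b'} : Finset V).card ≤ 6 :=
        (Finset.card_union_le _ _).trans (by
          have h7 : ({a, v, a'} : Finset V).card ≤ 3 := Finset.card_le_three
          have h8 : ({v, b, b'} : Finset V).card ≤ 3 := Finset.card_le_three
          omega)
      obtain ⟨z, hz, hzU⟩ : ∃ z ∈ Qs G X, z ∉ ({a, v, a'} ∪ {v, b, b'} : Finset V) := by
        by_contra hcon
        push Not at hcon
        have := Finset.card_le_card (s := Qs G X) (t := ({a, v, a'} ∪ {v, b, b'} : Finset V))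
          hcon
        omega
      have hz' : z ≠ a ∧ z ≠ v ∧ z ≠ a' ∧ z ≠ b ∧ z ≠ b' := by
        simp only [mem_union, mem_insert, mem_singleton, not_or] at hzU
        tauto
      obtain ⟨S', hS', hdis⟩ := hlinkX {a, v, a', b'} b z hz'.2.2.2.1.symm kb
        ((mem_filter.1 hz).2.1) hbQ hz (Finset.card_le_four.trans (by norm_num))
        (by
          simp only [mem_insert, mem_singleton, not_or]
          exact ⟨n1.symm, k4.ne', n3.symm, k6.ne⟩)
        (by
          simp only [mem_insert, mem_singleton, not_or]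
          exact ⟨hz'.1, hz'.2.1, hz'.2.2.1, hz'.2.2.2.2⟩)
        (by
          rw [Finset.disjoint_left]
          intro u hu
          simp only [mem_insert, mem_singleton] at hu
          rcases hu with rfl | rfl | rfl | rfl
          · exact ka
          · exact kv
          · exact ka'
          · exact kb')
      have e4 := ET.trans e3 hS' (by
        intro u hu
        obtain ⟨h7, h8⟩ := mem_inter.1 hu
        have h9 := Finset.disjoint_right.1 hdis h8
        simp only [mem_insert, mem_singleton, not_or] at h9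
        rcases hU u h7 with h10 | h10 | h10
        · exact absurd h10 h9.1
        · exact mem_singleton.2 h10
        · simp only [mem_insert, mem_singleton] at h10
          tauto)
      exact ⟨a, z, _, by
        have : 1 + 1 + 2 * s = 2 * s + 2 := by omega
        rw [this] at e4
        exact e4⟩
    · -- cycle
      obtain ⟨S', hS', hdis⟩ := hlinkX {v, a', b'} b a n1.symm kb ka hbQ haQ
        (Finset.card_le_three.trans (by norm_num))
        (by
          simp only [mem_insert, mem_singleton, not_or]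
          exact ⟨k4.ne', n3.symm, k6.ne⟩)
        (by
          simp only [mem_insert, mem_singleton, not_or]
          exact ⟨k1.ne', k3.ne, n2⟩)
        (by
          rw [Finset.disjoint_left]
          intro u hu
          simp only [mem_insert, mem_singleton] at hu
          rcases hu with rfl | rfl | rfl
          · exact kv
          · exact ka'
          · exact kb')
      have e4 := ET.close e3 hS' (by
        intro u hu
        obtain ⟨h7, h8⟩ := mem_inter.1 hu
        have h9 := Finset.disjoint_right.1 hdis h8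
        rcases hU u h7 with h10 | h10 | h10
        · exact mem_insert.2 (Or.inl h10)
        · exact mem_insert.2 (Or.inr (mem_singleton.2 h10))
        · exact absurd h10 h9) (by omega) (by omega)
      have : 1 + 1 + 2 * s = 2 * s + 2 := by omega
      rw [this] at e4
      exact e4
  · intro p1 q1 r1 p2 q2 r2 d1 d2 g1 g2 g3 g4 g5 g6 hdis hq1 hq2 hd1 hd2 l1 l2
    obtain ⟨k1, kp1, kq1⟩ := hadj g1
    obtain ⟨k2, -, kr1⟩ := hadj g2
    obtain ⟨k3, -, -⟩ := hadj g3
    obtain ⟨k4, kp2, kq2⟩ := hadj g4
    obtain ⟨k5, -, kr2⟩ := hadj g5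
    obtain ⟨k6, -, -⟩ := hadj g6
    have hne : ∀ u ∈ ({p1, q1, r1} : Finset V), ∀ v ∈ ({p2, q2, r2} : Finset V), u ≠ v := by
      intro u hu v hv huv
      subst huv
      exact (Finset.disjoint_left.1 hdis) hu hv
    constructor
    · -- path
      have e1 : EP G 1 p1 q1 {p1, q1, r1} := ET.single k1 k2 k3
      have e2 : EP G 1 q2 p2 {q2, p2, r2} := ET.single k4.symm k6 k5
      have n1 : q1 ≠ q2 := hne _ (by simp) _ (by simp)
      have n2 : q1 ≠ p2 := hne _ (by simp) _ (by simp)
      have n3 : q1 ≠ r2 := hne _ (by simp) _ (by simp)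
      have n4 : p1 ≠ q2 := hne _ (by simp) _ (by simp)
      have n5 : r1 ≠ q2 := hne _ (by simp) _ (by simp)
      obtain ⟨S', hS', hdis'⟩ := hlinkX {p1, r1, p2, r2} q1 q2 n1 kq1 kq2 hq1 hq2
        (Finset.card_le_four.trans (by norm_num))
        (by
          simp only [mem_insert, mem_singleton, not_or]
          exact ⟨k1.ne', k3.ne, n2, n3⟩)
        (by
          simp only [mem_insert, mem_singleton, not_or]
          exact ⟨n4.symm, n5.symm, k4.ne', k6.ne⟩)
        (by
          rw [Finset.disjoint_left]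
          intro u hu
          simp only [mem_insert, mem_singleton] at hu
          rcases hu with rfl | rfl | rfl | rfl
          · exact kp1
          · exact kr1
          · exact kp2
          · exact kr2)
      have hav : ∀ u ∈ S', u ≠ p1 ∧ u ≠ r1 ∧ u ≠ p2 ∧ u ≠ r2 := by
        intro u hu
        have h9 := Finset.disjoint_right.1 hdis' hu
        simpa only [mem_insert, mem_singleton, not_or] using h9
      have e3 := ET.trans e1 hS' (by
        intro u hu
        obtain ⟨h7, h8⟩ := mem_inter.1 hu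
        simp only [mem_insert, mem_singleton] at h7 ⊢
        rcases h7 with h7 | h7 | h7
        · exact absurd h7 (hav u h8).1
        · exact h7
        · exact absurd h7 (hav u h8).2.1)
      have e4 := ET.trans e3 e2 (by
        intro u hu
        obtain ⟨h7, h8⟩ := mem_inter.1 hu
        simp only [mem_insert, mem_singleton] at h8 ⊢
        rcases mem_union.1 h7 with h9 | h9
        · exact absurd rfl (hne u h9 u (by
            simp only [mem_insert, mem_singleton]
            tauto))
        · rcases h8 with h8 | h8 | h8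
          · exact h8
          · exact absurd h8 (hav u h9).2.2.1
          · exact absurd h8 (hav u h9).2.2.2)
      exact ⟨p1, p2, _, by
        have : 1 + 2 * s + 1 = 2 * s + 2 := by omega
        rw [this] at e4
        exact e4⟩
    · -- cycle
      by_cases hdd : d1 = d2
      · subst hdd
        obtain ⟨d', hd', hne'⟩ : ∃ d' ∈ X, d1 ≠ d' := by
          by_cases h : d1 = x0
          · exact ⟨x1, hx1, by rw [h]; exact hx01⟩
          · exact ⟨x0, hx0, h⟩
        refine two_tri ET hs le_rfl hX hlink (p1 := p1) (q1 := q1) (r1 := r1) (α := p2) (β := q2)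
          (γ := r2) k1.symm k3 k2 k4 k5 k6 kp1 kq1 kr1 kp2 kq2 kr2 ?_ hd1 hd' hne' l1 l2
          (hQ q2 hq2 d' hd') (hQ q1 hq1)
        rw [Finset.disjoint_left]
        intro u hu hu'
        exact hne u (by
          simp only [mem_insert, mem_singleton] at hu ⊢
          tauto) u hu' rfl
      · refine two_tri ET hs le_rfl hX hlink (p1 := p1) (q1 := q1) (r1 := r1) (α := q2) (β := p2)
          (γ := r2) k1.symm k3 k2 k4.symm k6 k5 kp1 kq1 kr1 kq2 kp2 kr2 ?_ hd1 hd2 hdd l1
          (hQ q2 hq2 d1 hd1) l2 (hQ q1 hq1)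
        rw [Finset.disjoint_left]
        intro u hu hu'
        exact hne u (by
          simp only [mem_insert, mem_singleton] at hu ⊢
          tauto) u (by
          simp only [mem_insert, mem_singleton] at hu' ⊢
          tauto) rfl

end

end Pool.Agent.Helper70.Tri
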