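import Pool.Agent.Helper61.Tri.Goals

/-! Packet KST of MP_5b3c48_co. -/

set_option autoImplicit false

open Finset

namespace Pool.Agent.Helper70.Tri

open Pool.Agent.Helper61.Tri

noncomputable section

open scoped Classical

theorem card_emb_ge {V : Type} [Fintype V] (N : ℕ) (P : V → Prop) :
    ((univ.filter P).card + 1 - N) ^ N ≤
      (univ.filter fun e : Fin N ↪ V => ∀ i, P (e i)).card := by
  have h1 : (univ.filter P).card = Fintype.card {x // P x} := by
    rw [Fintype.card_subtype]
  have h2 : Fintype.card (Fin N ↪ {x // P x}) = (univ.filter P).card.descFactorial N := by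
    rw [Fintype.card_embedding_eq, Fintype.card_fin, h1]
  refine (Nat.pow_sub_le_descFactorial _ _).trans ?_
  rw [← h2, ← Finset.card_univ]
  refine Finset.card_le_card_of_injOn
    (fun e : Fin N ↪ {x // P x} => e.trans (Function.Embedding.subtype P)) ?_ ?_
  · intro e _
    simp only [coe_filter, mem_univ, true_and, Set.mem_ofPred_eq]
    intro i
    exact (e i).2
  · intro e _ e' _ h
    ext i
    have := DFunLike.congr_fun h i
    exact this

theorem kst : KST := by
  intro N β hβ
  refine ⟨β / 2 * (β / 4) ^ N, by positivity, max 1 ⌈(N : ℝ) / (β / 4)⌉₊, ?_⟩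
  intro V _ hn R hR
  have hn1 : 1 ≤ Fintype.card V := (le_max_left _ _).trans hn
  have hn2 : (N : ℝ) ≤ β / 4 * (Fintype.card V : ℝ) := by
    have h1 : ⌈(N : ℝ) / (β / 4)⌉₊ ≤ Fintype.card V := (le_max_right _ _).trans hn
    have h2 : (N : ℝ) / (β / 4) ≤ (Fintype.card V : ℝ) :=
      (Nat.le_ceil _).trans (by exact_mod_cast h1)
    rw [div_le_iff₀ (by positivity)] at h2
    linarith
  have hV : Nonempty V := Fintype.card_pos_iff.1 hn1
  have hn0 : (0 : ℝ) < (Fintype.card V : ℝ) := by exact_mod_cast hn1
  set n : ℝ := (Fintype.card V : ℝ) with hndef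
  -- degrees
  let d : V → ℕ := fun w => (univ.filter fun x => R x w).card
  have hsum : ((univ.filter fun p : V × V => R p.1 p.2).card : ℝ) = ∑ w, (d w : ℝ) := by
    have h1 : (univ.filter fun p : V × V => R p.1 p.2).card = ∑ w, d w := by
      rw [Finset.card_filter, Fintype.sum_prod_type_right]
      refine Finset.sum_congr rfl fun w _ => ?_
      exact (Finset.card_filter _ _).symm
    rw [h1]
    push_cast
    rfl
  have hdn : ∀ w, (d w : ℝ) ≤ n := by
    intro w
    have : d w ≤ Fintype.card V := Finset.card_le_univ _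
    rw [hndef]
    exact_mod_cast this
  let good : Finset V := univ.filter fun w => β / 2 * n ≤ (d w : ℝ)
  have hgood : β / 2 * n ≤ (good.card : ℝ) := by
    have h1 : ∑ w, (d w : ℝ) ≤ (good.card : ℝ) * n + n * (β / 2 * n) := by
      rw [← Finset.sum_filter_add_sum_filter_not univ (fun w => β / 2 * n ≤ (d w : ℝ))]
      refine add_le_add ?_ ?_
      · refine (Finset.sum_le_card_nsmul _ _ n fun w _ => hdn w).trans ?_
        rw [nsmul_eq_mul]
      · refine (Finset.sum_le_card_nsmul _ _ (β / 2 * n) fun w hw => ?_).trans ?_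
        · exact (not_le.1 (mem_filter.1 hw).2).le
        · rw [nsmul_eq_mul]
          refine mul_le_mul_of_nonneg_right ?_ (by positivity)
          have : (univ.filter fun w => ¬ β / 2 * n ≤ (d w : ℝ)).card ≤ Fintype.card V :=
            Finset.card_le_univ _
          calc ((univ.filter fun w => ¬ β / 2 * n ≤ (d w : ℝ)).card : ℝ) ≤
              ((Fintype.card V : ℕ) : ℝ) := Nat.cast_le.2 this
            _ = n := hndef.symm
    rw [← hsum] at h1
    have h2 := hR.trans h1
    have h3 : β / 2 * n * n ≤ (good.card : ℝ) * n := by nlinarith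
    exact le_of_mul_le_mul_right h3 hn0
  -- double counting
  let W : (Fin N ↪ V) → Finset V := fun e => univ.filter fun w => ∀ i, R (e i) w
  have hdc : ∑ e : Fin N ↪ V, (W e).card =
      ∑ w : V, (univ.filter fun e : Fin N ↪ V => ∀ i, R (e i) w).card := by
    simp only [W, Finset.card_filter]
    exact Finset.sum_comm
  have hlow : β / 2 * n * (β / 4 * n) ^ N ≤ ∑ e : Fin N ↪ V, ((W e).card : ℝ) := by
    have h1 : (∑ e : Fin N ↪ V, ((W e).card : ℝ)) =
        ∑ w : V, ((univ.filter fun e : Fin N ↪ V => ∀ i, R (e i) w).card : ℝ) := by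
      exact_mod_cast hdc
    rw [h1]
    calc β / 2 * n * (β / 4 * n) ^ N ≤ (good.card : ℝ) * (β / 4 * n) ^ N := by
          gcongr
      _ = ∑ w ∈ good, (β / 4 * n) ^ N := by rw [Finset.sum_const, nsmul_eq_mul]
      _ ≤ ∑ w ∈ good, ((univ.filter fun e : Fin N ↪ V => ∀ i, R (e i) w).card : ℝ) := by
          refine Finset.sum_le_sum fun w hw => ?_
          have h2 := card_emb_ge (V := V) N (fun x => R x w)
          have h3 : (((d w + 1 - N : ℕ) : ℝ)) ^ N ≤
              ((univ.filter fun e : Fin N ↪ V => ∀ i, R (e i) w).card : ℝ) := by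
            exact_mod_cast h2
          refine le_trans (pow_le_pow_left₀ (by positivity) ?_ N) h3
          have h4 : d w ≤ (d w + 1 - N) + N := by omega
          have h5 : (d w : ℝ) ≤ ((d w + 1 - N : ℕ) : ℝ) + N := by exact_mod_cast h4
          have h6 : β / 2 * n ≤ (d w : ℝ) := (mem_filter.1 hw).2
          linarith
      _ ≤ _ := Finset.sum_le_sum_of_subset_of_nonneg (Finset.subset_univ _)
          fun w _ _ => by positivity
  have hex : ∃ e : Fin N ↪ V, β / 2 * (β / 4) ^ N * n ≤ ((W e).card : ℝ) := by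
    by_contra hcon
    push Not at hcon
    have hE : ((Fintype.card (Fin N ↪ V) : ℕ) : ℝ) ≤ n ^ N := by
      have : Fintype.card (Fin N ↪ V) ≤ Fintype.card V ^ N := by
        rw [Fintype.card_embedding_eq, Fintype.card_fin]
        exact Nat.descFactorial_le_pow _ _
      rw [hndef]
      exact_mod_cast this
    have hpos : 0 < β / 2 * n * (β / 4 * n) ^ N := by positivity
    rcases isEmpty_or_nonempty (Fin N ↪ V) with hem | hne
    · rw [Fintype.sum_empty] at hlow
      linarith
    · have h1 : ∑ e : Fin N ↪ V, ((W e).card : ℝ) <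
          ∑ _e : Fin N ↪ V, β / 2 * (β / 4) ^ N * n :=
        Finset.sum_lt_sum_of_nonempty Finset.univ_nonempty fun e _ => hcon e
      rw [Finset.sum_const, nsmul_eq_mul, Finset.card_univ] at h1
      have h2 : ((Fintype.card (Fin N ↪ V) : ℕ) : ℝ) * (β / 2 * (β / 4) ^ N * n) ≤
          n ^ N * (β / 2 * (β / 4) ^ N * n) := by
        gcongr
      have h3 : n ^ N * (β / 2 * (β / 4) ^ N * n) = β / 2 * n * (β / 4 * n) ^ N := by
        rw [mul_pow]
        ring
      linarith
  obtain ⟨e, he⟩ := hex
  refine ⟨fun i => if h : i < N then e ⟨i, h⟩ else Classical.choice hV, W e, ?_, he, ?_⟩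
  · intro i hi j hj hij
    dsimp only at hij
    rw [dif_pos hi, dif_pos hj] at hij
    have := e.injective hij
    exact congrArg Fin.val this
  · intro i hi w hw
    dsimp only
    rw [dif_pos hi]
    exact (mem_filter.1 hw).2 ⟨i, hi⟩

end

end Pool.Agent.Helper70.Tri
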