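import Pool.Agent.Helper61.Tri.Goals

/-! Packet ST of MP_5b3c48_co. -/

set_option autoImplicit false

open Finset

namespace Pool.Agent.Helper70.Tri

open Pool.Agent.Helper61.Tri

noncomputable section

open scoped Classical

namespace St

variable {V : Type} [Fintype V]

theorem card_fst_le (J : SimpleGraph V) (U : Finset V) :
    ((oe J).filter fun p => p.1 ∈ U).card ≤ ∑ u ∈ U, (nb J u).card := by
  have hmem : ∀ p ∈ (oe J).filter (fun p => p.1 ∈ U), p.1 ∈ U := fun p hp => (mem_filter.1 hp).2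
  rw [Finset.card_eq_sum_card_fiberwise hmem]
  refine Finset.sum_le_sum fun u _ => ?_
  refine Finset.card_le_card_of_injOn Prod.snd ?_ ?_
  · intro p hp
    simp only [coe_filter, mem_filter, oe, mem_univ, true_and, Set.mem_ofPred_eq, nb] at hp ⊢
    rw [← hp.2]
    exact hp.1.1
  · intro p hp q hq h
    simp only [coe_filter, mem_filter, Set.mem_ofPred_eq] at hp hq
    exact Prod.ext (hp.2.trans hq.2.symm) h

theorem card_snd_le (J : SimpleGraph V) (U : Finset V) :
    ((oe J).filter fun p => p.2 ∈ U).card ≤ ∑ u ∈ U, (nb J u).card := by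
  refine le_trans ?_ (card_fst_le J U)
  refine Finset.card_le_card_of_injOn Prod.swap ?_ ?_
  · intro p hp
    simp only [coe_filter, oe, mem_filter, mem_univ, true_and, Set.mem_ofPred_eq] at hp ⊢
    exact ⟨hp.1.symm, hp.2⟩
  · intro p _ q _ h
    exact Prod.swap_injective h

/-- Mantel. -/
theorem mantel (J : SimpleGraph V) (W : Finset V) (hTF : TF J) (hW : ∀ u v, J.Adj u v → u ∈ W) :
    2 * (oe J).card ≤ W.card ^ 2 := by
  rcases W.eq_empty_or_nonempty with h0 | hne
  · have : oe J = ∅ := by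
      ext p
      simp only [oe, mem_filter, mem_univ, true_and, notMem_empty, iff_false]
      intro h
      have := hW _ _ h
      rw [h0] at this
      exact absurd this (notMem_empty _)
    rw [this]
    simp
  · obtain ⟨z, hz, hmax⟩ := Finset.exists_max_image W (fun u => (nb J u).card) hne
    have hsub : nb J z ⊆ W := by
      intro v hv
      exact hW v z ((mem_filter.1 hv).2.symm)
    have h1 : oe J ⊆ ((oe J).filter fun p => p.1 ∈ W \ nb J z) ∪
        ((oe J).filter fun p => p.2 ∈ W \ nb J z) := by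
      intro p hp
      have hadj : J.Adj p.1 p.2 := (mem_filter.1 hp).2
      simp only [mem_union, mem_filter, hp, true_and, mem_sdiff]
      by_cases h2 : p.1 ∈ nb J z
      · right
        refine ⟨hW _ _ hadj.symm, fun h3 => ?_⟩
        exact hTF z p.1 p.2 (mem_filter.1 h2).2 (mem_filter.1 h3).2 hadj
      · left
        exact ⟨hW _ _ hadj, h2⟩
    have h2 : ∑ u ∈ W \ nb J z, (nb J u).card ≤ (W \ nb J z).card * (nb J z).card := by
      refine (Finset.sum_le_card_nsmul _ _ (nb J z).card fun u hu => ?_).trans ?_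
      · exact hmax u (mem_sdiff.1 hu).1
      · rw [smul_eq_mul]
    have h3 : (oe J).card ≤ 2 * ((W \ nb J z).card * (nb J z).card) := by
      refine (Finset.card_le_card h1).trans ((Finset.card_union_le _ _).trans ?_)
      have h4 := card_fst_le J (W \ nb J z)
      have h5 := card_snd_le J (W \ nb J z)
      omega
    have h4 : (W \ nb J z).card + (nb J z).card = W.card := Finset.card_sdiff_add_card_eq_card hsub
    rw [← h4]
    nlinarith [sq_nonneg (((W \ nb J z).card : ℤ) - (nb J z).card),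
      four_mul_le_sq_add (W \ nb J z).card (nb J z).card]

end St

open St

theorem st : Bip → EmbD → ST1 → ST := by
  intro hBip hEmb hST1 s hs κ hκ ε hε
  set ε0 : ℝ := min ε 1 with hε0def
  have hε0 : 0 < ε0 := lt_min hε one_pos
  have hε01 : ε0 ≤ 1 := min_le_right _ _
  have hε0ε : ε0 ≤ ε := min_le_left _ _
  obtain ⟨ε1, hε1, n1, hE⟩ := hEmb s hs (ε0 / 4) (by positivity)
  set e : ℝ := min ε1 (ε0 ^ 2 / 1600) with hedef
  have he : 0 < e := lt_min hε1 (by positivity)
  have he1 : e ≤ ε1 := min_le_left _ _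
  have he2 : e ≤ ε0 ^ 2 / 1600 := min_le_right _ _
  have he3 : e ≤ ε0 / 1600 := he2.trans (by nlinarith)
  have hsqrt : Real.sqrt e ≤ ε0 / 40 := by
    rw [Real.sqrt_le_left (by positivity)]
    nlinarith
  obtain ⟨δ, hδ, n0, hS⟩ := hST1 s hs κ hκ e he
  refine ⟨δ, hδ, max 1 (max n0 n1), ?_⟩
  intro V _ hn G hG hot
  have hn1 : 1 ≤ Fintype.card V := (le_max_left _ _).trans hn
  have hnn0 : n0 ≤ Fintype.card V := (le_max_left _ _).trans ((le_max_right _ _).trans hn)
  have hnn1 : n1 ≤ Fintype.card V := (le_max_right _ _).trans ((le_max_right _ _).trans hn)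
  obtain ⟨X, J, hXc, hJG, hTF, hoeJ, hoeG, hE1⟩ := hS V hnn0 G hG hot
  obtain ⟨A, hA1, -, hA3, hA4⟩ := hBip V J e he.le hTF hoeJ
  have hE' := hE V hnn1 G
  generalize hnd : (Fintype.card V : ℝ) = n at *
  have hn0 : (0 : ℝ) < n := by
    rw [← hnd]
    exact_mod_cast hn1
  -- the vertices adjacent to all of `X`
  set VX : Finset V := univ.filter fun v => ∀ x ∈ X, G.Adj v x with hVXdef
  have hJle : oe J ⊆ oe G := by
    intro p hp
    exact mem_filter.2 ⟨mem_univ _, hJG (mem_filter.1 hp).2⟩
  have hdiff : ((oe G \ oe J).card : ℝ) ≤ 2 * e * n ^ 2 := by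
    have h1 : (oe G \ oe J).card + (oe J).card = (oe G).card :=
      Finset.card_sdiff_add_card_eq_card hJle
    have h2 : ((oe G \ oe J).card : ℝ) + (oe J).card = (oe G).card := by exact_mod_cast h1
    linarith
  have hVX : (1 - 6 * e) * n ≤ (VX.card : ℝ) := by
    set E1 : Finset (V × V) := univ.filter fun p : V × V => Estar G s p.1 p.2 ∧ cn G p.1 p.2 = X
    have h1 : E1 ⊆ oe (within J VX) ∪ (oe G \ oe J) := by
      intro p hp
      obtain ⟨h2, h3⟩ := (mem_filter.1 hp).2
      by_cases h4 : J.Adj p.1 p.2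
      · refine mem_union_left _ (mem_filter.2 ⟨mem_univ _, h4, ?_, ?_⟩)
        · refine mem_filter.2 ⟨mem_univ _, fun x hx => ?_⟩
          rw [← h3] at hx
          exact (mem_filter.1 hx).2.1
        · refine mem_filter.2 ⟨mem_univ _, fun x hx => ?_⟩
          rw [← h3] at hx
          exact (mem_filter.1 hx).2.2
      · refine mem_union_right _ (mem_sdiff.2 ⟨mem_filter.2 ⟨mem_univ _, h2.1⟩, fun h5 => ?_⟩)
        exact h4 (mem_filter.1 h5).2
    have h2 : (E1.card : ℝ) ≤ ((oe (within J VX)).card : ℝ) + ((oe G \ oe J).card : ℝ) := by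
      exact_mod_cast (Finset.card_le_card h1).trans (Finset.card_union_le _ _)
    have h3 : 2 * (oe (within J VX)).card ≤ VX.card ^ 2 := by
      refine mantel _ _ ?_ ?_
      · intro u v w huv huw hvw
        exact hTF u v w huv.1 huw.1 hvw.1
      · intro u v huv
        exact huv.2.1
    have h4 : 2 * ((oe (within J VX)).card : ℝ) ≤ (VX.card : ℝ) ^ 2 := by exact_mod_cast h3
    have h5 : (VX.card : ℝ) ≤ n := by
      rw [← hnd]
      exact_mod_cast Finset.card_le_univ _
    have h6 : (VX.card : ℝ) ^ 2 ≤ (VX.card : ℝ) * n := by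
      rw [sq]
      exact mul_le_mul_of_nonneg_left h5 (by positivity)
    have h7 : (1 - 6 * e) * n * n ≤ (VX.card : ℝ) * n := by nlinarith
    exact le_of_mul_le_mul_right h7 hn0
  -- low degrees
  set L : Finset V := univ.filter fun v => ¬ n / 10 ≤ ((nb G v).card : ℝ) with hLdef
  have hL : (L.card : ℝ) ≤ 10 / 3 * e * n := by
    have h1 : oe J ⊆ oe (within J Lᶜ) ∪ (((oe J).filter fun p => p.1 ∈ L) ∪
        ((oe J).filter fun p => p.2 ∈ L)) := by
      intro p hp
      by_cases h2 : p.1 ∈ L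
      · exact mem_union_right _ (mem_union_left _ (mem_filter.2 ⟨hp, h2⟩))
      · by_cases h3 : p.2 ∈ L
        · exact mem_union_right _ (mem_union_right _ (mem_filter.2 ⟨hp, h3⟩))
        · exact mem_union_left _ (mem_filter.2 ⟨mem_univ _, (mem_filter.1 hp).2,
            mem_compl.2 h2, mem_compl.2 h3⟩)
    have h2 : ((∑ u ∈ L, (nb J u).card : ℕ) : ℝ) ≤ (L.card : ℝ) * (n / 10) := by
      push_cast
      refine (Finset.sum_le_card_nsmul _ _ (n / 10) fun u hu => ?_).trans ?_
      · have h3 : (nb J u).card ≤ (nb G u).card := by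
          refine Finset.card_le_card fun v hv => ?_
          exact mem_filter.2 ⟨mem_univ _, hJG (mem_filter.1 hv).2⟩
        have h4 : ((nb J u).card : ℝ) ≤ (nb G u).card := by exact_mod_cast h3
        exact h4.trans (not_le.1 (mem_filter.1 hu).2).le
      · rw [nsmul_eq_mul]
    have h3 : ((oe J).card : ℝ) ≤ ((oe (within J Lᶜ)).card : ℝ) +
        (((∑ u ∈ L, (nb J u).card : ℕ) : ℝ) + ((∑ u ∈ L, (nb J u).card : ℕ) : ℝ)) := by
      have h4 := (Finset.card_le_card h1).trans (Finset.card_union_le _ _)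
      have h5 := Finset.card_union_le ((oe J).filter fun p => p.1 ∈ L)
        ((oe J).filter fun p => p.2 ∈ L)
      have h6 := card_fst_le J L
      have h7 := card_snd_le J L
      exact_mod_cast (by omega : (oe J).card ≤ (oe (within J Lᶜ)).card +
        ((∑ u ∈ L, (nb J u).card) + (∑ u ∈ L, (nb J u).card)))
    have h4 : 2 * (oe (within J Lᶜ)).card ≤ (Lᶜ).card ^ 2 := by
      refine mantel _ _ ?_ ?_
      · intro u v w huv huw hvw
        exact hTF u v w huv.1 huw.1 hvw.1
      · intro u v huv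
        exact huv.2.1
    have h5 : 2 * ((oe (within J Lᶜ)).card : ℝ) ≤ ((Lᶜ).card : ℝ) ^ 2 := by exact_mod_cast h4
    have h6 : ((Lᶜ).card : ℝ) = n - L.card := by
      have h7 : L.card + (Lᶜ).card = Fintype.card V := Finset.card_add_card_compl L
      have h8 : (L.card : ℝ) + ((Lᶜ).card : ℝ) = (Fintype.card V : ℝ) := by exact_mod_cast h7
      rw [hnd] at h8
      linarith
    rw [h6] at h5
    have h7 : (L.card : ℝ) ≤ n := by
      rw [← hnd]
      exact_mod_cast Finset.card_le_univ _
    have h8 : (0 : ℝ) ≤ L.card := by positivity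
    have h9 : 3 / 10 * (L.card : ℝ) * n ≤ e * n * n := by nlinarith
    have h10 : 3 / 10 * (L.card : ℝ) ≤ e * n := le_of_mul_le_mul_right h9 hn0
    linarith
  have hVXc : (((VX)ᶜ).card : ℝ) ≤ 6 * e * n := by
    have h7 : VX.card + (VXᶜ).card = Fintype.card V := Finset.card_add_card_compl VX
    have h8 : (VX.card : ℝ) + ((VXᶜ).card : ℝ) = (Fintype.card V : ℝ) := by exact_mod_cast h7
    rw [hnd] at h8
    linarith
  refine ⟨X, hXc, ?_, ?_⟩
  · have h1 : Us G X ⊆ VXᶜ ∪ L := by
      intro v hv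
      obtain ⟨h2, h3⟩ := (mem_filter.1 hv).2
      by_contra h4
      rw [mem_union, not_or] at h4
      refine h3 (mem_filter.2 ⟨mem_univ _, h2, ?_, ?_⟩)
      · have h5 : v ∈ VX := by
          by_contra h6
          exact h4.1 (mem_compl.2 h6)
        exact (mem_filter.1 h5).2
      · by_contra h6
        rw [hnd] at h6
        exact h4.2 (mem_filter.2 ⟨mem_univ _, h6⟩)
    have h2 : ((Us G X).card : ℝ) ≤ ((VXᶜ).card : ℝ) + (L.card : ℝ) := by
      exact_mod_cast (Finset.card_le_card h1).trans (Finset.card_union_le _ _)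
    have h3 : (6 * e + 10 / 3 * e) * n ≤ ε * n := by
      refine mul_le_mul_of_nonneg_right ?_ hn0.le
      linarith
    linarith
  · intro v hv
    by_contra hcon
    rw [not_le] at hcon
    -- neighbours on both sides
    have hsplit : ((nb G v).card : ℝ) = (((nb G v) ∩ A).card : ℝ) + (((nb G v) \ A).card : ℝ) := by
      have := Finset.card_inter_add_card_sdiff (nb G v) A
      exact_mod_cast this.symm
    have hnA : (39 / 40 * ε0) * n ≤ (((nb G v) ∩ A).card : ℝ) := by
      have h1 : (((nb G v) \ A).card : ℝ) ≤ ((Aᶜ).card : ℝ) := by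
        refine Nat.cast_le.2 (Finset.card_le_card fun u hu => ?_)
        exact mem_compl.2 (mem_sdiff.1 hu).2
      have h2 : (Real.sqrt e) * n ≤ ε0 / 40 * n := mul_le_mul_of_nonneg_right hsqrt hn0.le
      have h3 : ε0 * n ≤ ε * n := mul_le_mul_of_nonneg_right hε0ε hn0.le
      nlinarith
    have hnB : (39 / 40 * ε0) * n ≤ (((nb G v) \ A).card : ℝ) := by
      have h1 : (((nb G v) ∩ A).card : ℝ) ≤ (A.card : ℝ) :=
        Nat.cast_le.2 (Finset.card_le_card Finset.inter_subset_right)
      have h2 : (Real.sqrt e) * n ≤ ε0 / 40 * n := mul_le_mul_of_nonneg_right hsqrt hn0.le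
      have h3 : ε0 * n ≤ ε * n := mul_le_mul_of_nonneg_right hε0ε hn0.le
      nlinarith
    have hen : e * n ≤ ε0 / 1600 * n := mul_le_mul_of_nonneg_right he3 hn0.le
    have hAX : ε0 / 4 * n ≤ ((A ∩ VX).card : ℝ) := by
      have h1 : (A.card : ℝ) + ((Aᶜ).card : ℝ) = n := by
        rw [← hnd]
        exact_mod_cast Finset.card_add_card_compl A
      have h2 : A ⊆ (A ∩ VX) ∪ VXᶜ := by
        intro u hu
        by_cases h3 : u ∈ VX
        · exact mem_union_left _ (mem_inter.2 ⟨hu, h3⟩)
        · exact mem_union_right _ (mem_compl.2 h3)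
      have h3 : (A.card : ℝ) ≤ ((A ∩ VX).card : ℝ) + ((VXᶜ).card : ℝ) := by
        exact_mod_cast (Finset.card_le_card h2).trans (Finset.card_union_le _ _)
      have h4 : (Real.sqrt e) * n ≤ ε0 / 40 * n := mul_le_mul_of_nonneg_right hsqrt hn0.le
      have h5 : ε0 * n ≤ 1 * n := mul_le_mul_of_nonneg_right hε01 hn0.le
      nlinarith
    have hcall := hE' A Aᶜ disjoint_compl_right ?_ (insert v X) (((nb G v) \ A) ∩ VX) ?_ ?_ ?_ ?_ ?_ ?_
    · obtain ⟨hP, hCe, hCo⟩ := hcall
      cases κ with
      | P => exact hG hP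
      | Ce => exact hG hCe
      | Co => exact hG hCo
      | Po => exact hκ rfl
    · -- few missing edges
      refine le_trans ?_ (hA1.trans (mul_le_mul_of_nonneg_right he1 (by positivity)))
      refine Nat.cast_le.2 (Finset.card_le_card fun p hp => ?_)
      obtain ⟨h1, h2, h3⟩ := (mem_filter.1 hp).2
      exact mem_filter.2 ⟨mem_univ _, h1, mem_compl.1 h2, fun h4 => h3 (hJG h4)⟩
    · rw [Finset.card_insert_of_notMem hv, hXc]
    · intro u hu
      exact mem_compl.2 (mem_sdiff.1 (mem_inter.1 hu).1).2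
    · have h2 : (nb G v) \ A ⊆ (((nb G v) \ A) ∩ VX) ∪ VXᶜ := by
        intro u hu
        by_cases h3 : u ∈ VX
        · exact mem_union_left _ (mem_inter.2 ⟨hu, h3⟩)
        · exact mem_union_right _ (mem_compl.2 h3)
      have h3 : (((nb G v) \ A).card : ℝ) ≤ (((((nb G v) \ A) ∩ VX)).card : ℝ) +
          ((VXᶜ).card : ℝ) := by
        exact_mod_cast (Finset.card_le_card h2).trans (Finset.card_union_le _ _)
      have h5 : 0 < ε0 * n := mul_pos hε0 hn0
      nlinarith
    · intro z hz d hd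
      obtain ⟨h1, h2⟩ := mem_inter.1 hz
      rcases mem_insert.1 hd with rfl | hd
      · exact (mem_filter.1 (mem_sdiff.1 h1).1).2.symm
      · exact (mem_filter.1 h2).2 d hd
    · intro d hd
      rcases mem_insert.1 hd with rfl | hd
      · have h5 : 0 < ε0 * n := mul_pos hε0 hn0
        have h6 : (((nb G d) ∩ A).card : ℝ) ≤ ((A.filter fun a => G.Adj d a).card : ℝ) := by
          refine Nat.cast_le.2 (Finset.card_le_card fun u hu => ?_)
          obtain ⟨h7, h8⟩ := mem_inter.1 hu
          exact mem_filter.2 ⟨h8, (mem_filter.1 h7).2⟩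
        nlinarith
      · refine hAX.trans (Nat.cast_le.2 (Finset.card_le_card fun u hu => ?_))
        obtain ⟨h7, h8⟩ := mem_inter.1 hu
        exact mem_filter.2 ⟨h7, ((mem_filter.1 h8).2 d hd).symm⟩
    · have h1 : 1 < X.card := by omega
      obtain ⟨a, ha, b, hb, hab⟩ := Finset.one_lt_card.1 h1
      refine ⟨a, mem_insert_of_mem ha, b, mem_insert_of_mem hb, hab, ?_⟩
      refine hAX.trans (Nat.cast_le.2 (Finset.card_le_card fun u hu => ?_))
      obtain ⟨h7, h8⟩ := mem_inter.1 hu
      exact mem_filter.2 ⟨h7, ((mem_filter.1 h8).2 a ha).symm, ((mem_filter.1 h8).2 b hb).symm⟩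

end

end Pool.Agent.Helper70.Tri
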